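import Pool.Agent.H38.RB.Targets

/-!
Module GRD: greedy choice.
-/

set_option autoImplicit false

namespace Pool.Agent.H33.RB

open Pool.Agent.H38.RB Finset

theorem grd_aux (u l : ℕ → ℝ) (L τ : ℝ) (hL : 0 ≤ L) (hτ : 0 ≤ τ) : ∀ (n : ℕ) (T : Finset ℕ),
    T.card = n → (∀ p ∈ T, 0 ≤ u p) → (∀ p ∈ T, 0 < l p) → (∀ p ∈ T, l p ≤ L) →
    ∀ U : ℝ, ∑ p ∈ T, u p ≤ U → 0 < U → τ ≤ U →
    ∃ D ⊆ T, ∑ p ∈ D, u p ≤ τ ∧ τ / U * ∑ p ∈ T, l p - L ≤ ∑ p ∈ D, l p := by
  intro n
  induction n with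
  | zero =>
    intro T hT _ _ _ U _ _ _
    rw [Finset.card_eq_zero] at hT
    subst hT
    exact ⟨∅, subset_rfl, by simpa using hτ, by simpa using hL⟩
  | succ n ih =>
    intro T hT hu hl hlL U hU hU0 hτU
    have hlT : 0 ≤ ∑ p ∈ T, l p := Finset.sum_nonneg fun p hp => (hl p hp).le
    have hr : τ / U * ∑ p ∈ T, l p ≤ ∑ p ∈ T, l p :=
      mul_le_of_le_one_left hlT ((div_le_one hU0).2 hτU)
    by_cases h : ∑ p ∈ T, u p ≤ τ
    · exact ⟨T, subset_rfl, h, by linarith⟩
    · push Not at h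
      have hne : T.Nonempty := Finset.card_pos.1 (by omega)
      obtain ⟨q, hq, hmax⟩ := Finset.exists_max_image T (fun p => u p / l p) hne
      have hc : (T.erase q).card = n := by rw [Finset.card_erase_of_mem hq, hT]; rfl
      have e1 : u q + ∑ p ∈ T.erase q, u p = ∑ p ∈ T, u p := Finset.add_sum_erase T u hq
      have e2 : l q + ∑ p ∈ T.erase q, l p = ∑ p ∈ T, l p := Finset.add_sum_erase T l hq
      have hlq := hl q hq
      by_cases h' : ∑ p ∈ T.erase q, u p ≤ τ
      · refine ⟨T.erase q, Finset.erase_subset q T, h', ?_⟩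
        have := hlL q hq
        linarith
      · push Not at h'
        have hU' : 0 < ∑ p ∈ T.erase q, u p := lt_of_le_of_lt hτ h'
        have hUT : 0 < ∑ p ∈ T, u p := lt_of_le_of_lt hτ h
        obtain ⟨D, hD, hD1, hD2⟩ := ih (T.erase q) hc
          (fun p hp => hu p (Finset.mem_of_mem_erase hp))
          (fun p hp => hl p (Finset.mem_of_mem_erase hp))
          (fun p hp => hlL p (Finset.mem_of_mem_erase hp)) _ le_rfl hU' h'.le
        refine ⟨D, hD.trans (Finset.erase_subset q T), hD1, ?_⟩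
        have key : (∑ p ∈ T, l p) * (∑ p ∈ T.erase q, u p) ≤
            (∑ p ∈ T.erase q, l p) * ∑ p ∈ T, u p := by
          have h3 : l q * ∑ p ∈ T, u p ≤ (∑ p ∈ T, l p) * u q := by
            rw [Finset.mul_sum, Finset.sum_mul]
            refine Finset.sum_le_sum fun p hp => ?_
            have h4 := hmax p hp
            rw [div_le_div_iff₀ (hl p hp) hlq] at h4
            linarith
          have h5 : ∑ p ∈ T.erase q, l p = ∑ p ∈ T, l p - l q := by linarith
          have h6 : ∑ p ∈ T.erase q, u p = ∑ p ∈ T, u p - u q := by linarith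
          rw [h5, h6]
          nlinarith
        have h7 : τ / U * ∑ p ∈ T, l p ≤ τ / (∑ p ∈ T.erase q, u p) * ∑ p ∈ T.erase q, l p := by
          calc τ / U * ∑ p ∈ T, l p ≤ τ / (∑ p ∈ T, u p) * ∑ p ∈ T, l p :=
                mul_le_mul_of_nonneg_right (div_le_div_of_nonneg_left hτ hUT hU) hlT
            _ ≤ _ := by
                rw [div_mul_eq_mul_div, div_mul_eq_mul_div, div_le_div_iff₀ hUT hU', mul_assoc,
                  mul_assoc]
                exact mul_le_mul_of_nonneg_left key hτ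
        linarith

/-- target GRD of the board -/
theorem GRD : T_GRD := by
  intro T u l U L τ hu hl hlL hL hU hU0 hτ hτU
  exact grd_aux u l L τ hL hτ T.card T rfl hu hl hlL U hU hU0 hτU

end Pool.Agent.H33.RB
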