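import Pool.Agent.H38.RB.LBTargets

/-!
Module L1: a family gives many violating tuples.
-/

set_option autoImplicit false

namespace Pool.Agent.H33.RB

open Pool.Agent.H38.RB.LB Pool.Agent.H38.AE.Statement Filter

theorem one_le_radical (m : ℤ) : 1 ≤ radical m := by
  unfold radical
  exact Finset.prod_pos fun p hp => (Nat.prime_of_mem_primeFactors hp).pos

theorem exceptional_finite (n : ℕ) (M : ℝ) (N : ℕ) : (Exceptional n M N).Finite := by
  refine (Set.finite_Icc (fun _ : Fin n => -(N : ℤ)) (fun _ => (N : ℤ))).subset ?_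
  intro x hx
  rw [Set.mem_Icc]
  exact ⟨fun i => (abs_le.1 (hx.2.1 i)).1, fun i => (abs_le.1 (hx.2.1 i)).2⟩

theorem fam_large (n D d : ℕ) (hD : 1 ≤ D) (hd : 1 ≤ d) (A M : ℝ) (hA : 1 ≤ A)
    (hM : M < (D : ℝ) / d) : ∃ t₀ : ℕ, ∀ t : ℕ, t₀ ≤ t → ∀ r : ℕ, 1 ≤ r →
      (r : ℝ) ≤ A * ((t : ℝ) + 1) ^ d → (r : ℝ) ^ M < ((t : ℝ) + 1) ^ D := by
  have ht : Tendsto (fun t : ℕ => (t : ℝ) + 1) atTop atTop :=
    tendsto_atTop_add_const_right _ _ tendsto_natCast_atTop_atTop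
  rcases le_or_gt M 0 with hM0 | hM0
  · refine ⟨1, fun t ht1 r hr _ => ?_⟩
    have h1 : (r : ℝ) ^ M ≤ 1 := Real.rpow_le_one_of_one_le_of_nonpos (by exact_mod_cast hr) hM0
    have h2 : (1 : ℝ) < (t : ℝ) + 1 := by
      have : (1 : ℝ) ≤ t := by exact_mod_cast ht1
      linarith
    exact h1.trans_lt (one_lt_pow₀ h2 (by omega))
  · have hexp : 0 < (D : ℝ) - d * M := by
      have hE' : (0 : ℝ) < d := by exact_mod_cast hd
      have := (lt_div_iff₀ hE').mp hM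
      linarith
    have hT2 : Tendsto (fun t : ℕ => ((t : ℝ) + 1) ^ ((D : ℝ) - d * M)) atTop atTop :=
      (tendsto_rpow_atTop hexp).comp ht
    obtain ⟨t₀, h0⟩ := eventually_atTop.1 (hT2.eventually_gt_atTop (A ^ M))
    refine ⟨t₀, fun t ht1 r hr hrA => ?_⟩
    have htpos : (0 : ℝ) < (t : ℝ) + 1 := by positivity
    have hApos : 0 < A := by linarith
    calc (r : ℝ) ^ M ≤ (A * ((t : ℝ) + 1) ^ d) ^ M :=
          Real.rpow_le_rpow (Nat.cast_nonneg _) hrA hM0.le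
      _ = A ^ M * ((t : ℝ) + 1) ^ ((d : ℝ) * M) := by
          rw [Real.mul_rpow hApos.le (pow_nonneg htpos.le _), ← Real.rpow_natCast,
            ← Real.rpow_mul htpos.le]
      _ < ((t : ℝ) + 1) ^ ((D : ℝ) - d * M) * ((t : ℝ) + 1) ^ ((d : ℝ) * M) :=
          mul_lt_mul_of_pos_right (h0 t ht1) (Real.rpow_pos_of_pos htpos _)
      _ = ((t : ℝ) + 1) ^ D := by
          rw [← Real.rpow_add htpos, ← Real.rpow_natCast]
          congr 1
          ring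

/-- target L1 of the board -/
theorem L1 : T_L1 := by
  intro n D d hD hd hf M hM
  obtain ⟨A, f, hA, hinj, hadm, hup, hlow, hrad⟩ := hf
  obtain ⟨t₀, ht₀⟩ := fam_large n D d hD hd A M hA hM
  have hA0 : 0 < A := by linarith
  have hD0 : (0 : ℝ) < D := by exact_mod_cast hD
  have hDi : 0 < 1 / (D : ℝ) := by positivity
  refine ⟨1 / 2 * (1 / A) ^ (1 / (D : ℝ)), by positivity, ?_⟩
  have hT : Tendsto (fun N : ℕ => ((N : ℝ) / A) ^ (1 / (D : ℝ))) atTop atTop :=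
    (tendsto_rpow_atTop hDi).comp (tendsto_natCast_atTop_atTop.atTop_div_const hA0)
  obtain ⟨N₀, hN₀⟩ := eventually_atTop.1 (hT.eventually_ge_atTop (2 * (1 + (t₀ : ℝ))))
  refine ⟨N₀, fun N hN => ?_⟩
  have h1 := hN₀ N hN
  obtain ⟨T, hTd⟩ : ∃ T : ℕ, T = ⌊((N : ℝ) / A) ^ (1 / (D : ℝ))⌋₊ := ⟨_, rfl⟩
  have hx0 : 0 ≤ ((N : ℝ) / A) ^ (1 / (D : ℝ)) := by positivity
  have hTle : (T : ℝ) ≤ ((N : ℝ) / A) ^ (1 / (D : ℝ)) := by
    rw [hTd]
    exact Nat.floor_le hx0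
  have hTlt : ((N : ℝ) / A) ^ (1 / (D : ℝ)) < T + 1 := by
    rw [hTd]
    exact Nat.lt_floor_add_one _
  have hsub : f '' ↑(Finset.Ico t₀ T) ⊆ Exceptional n M N := by
    rintro _ ⟨t, ht, rfl⟩
    rw [Finset.mem_coe, Finset.mem_Ico] at ht
    refine ⟨hadm t, fun i => ?_, ?_⟩
    · have h2 : ((t : ℝ) + 1) ≤ T := by exact_mod_cast ht.2
      have h3 : ((t : ℝ) + 1) ^ D ≤ (N : ℝ) / A := by
        calc ((t : ℝ) + 1) ^ D ≤ (((N : ℝ) / A) ^ (1 / (D : ℝ))) ^ D :=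
              pow_le_pow_left₀ (by positivity) (h2.trans hTle) D
          _ = (N : ℝ) / A := by
              rw [← Real.rpow_natCast, ← Real.rpow_mul (by positivity), one_div,
                inv_mul_cancel₀ hD0.ne', Real.rpow_one]
      have h4 : |((f t i : ℤ) : ℝ)| ≤ N := by
        refine (hup t i).trans ?_
        rw [le_div_iff₀ hA0] at h3
        linarith
      have h5 : ((|f t i| : ℤ) : ℝ) ≤ ((N : ℤ) : ℝ) := by
        rw [Int.cast_abs]
        exact_mod_cast h4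
      exact_mod_cast h5
    · obtain ⟨i, hi⟩ := hlow t
      exact ⟨i, (ht₀ t ht.1 _ (one_le_radical _) (hrad t)).trans_le hi⟩
  have hcard : T - t₀ ≤ (Exceptional n M N).ncard := by
    calc T - t₀ = (Finset.Ico t₀ T).card := (Nat.card_Ico _ _).symm
      _ = (f '' ↑(Finset.Ico t₀ T)).ncard := by
          rw [Set.InjOn.ncard_image hinj.injOn, Set.ncard_coe_finset]
      _ ≤ _ := Set.ncard_le_ncard hsub (exceptional_finite n M N)
  have hcard' : (T : ℝ) - t₀ ≤ ((Exceptional n M N).ncard : ℝ) := by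
    have h2 : (T : ℝ) ≤ ((Exceptional n M N).ncard + t₀ : ℕ) := by
      exact_mod_cast Nat.sub_le_iff_le_add.1 hcard
    push_cast at h2
    linarith
  have e : (1 / A) ^ (1 / (D : ℝ)) * (N : ℝ) ^ (1 / (D : ℝ)) = ((N : ℝ) / A) ^ (1 / (D : ℝ)) := by
    rw [← Real.mul_rpow (by positivity) (by positivity)]
    congr 1
    ring
  calc 1 / 2 * (1 / A) ^ (1 / (D : ℝ)) * (N : ℝ) ^ (1 / (D : ℝ)) =
      1 / 2 * ((N : ℝ) / A) ^ (1 / (D : ℝ)) := by rw [mul_assoc, e]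
    _ ≤ (T : ℝ) - t₀ := by linarith
    _ ≤ _ := hcard'

end Pool.Agent.H33.RB
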